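import Pool.Agent.helper53.DC.SpecV

/-! V7: finitely many `H`-orbits of ordered crossing pairs. -/

set_option autoImplicit false

namespace Pool.Agent.helper65.DC

open Pool.Agent.helper53.DC

theorem V7 (h7 : A7_stmt) (h21 : A21_stmt) (h4c : A4c_stmt) : V7_stmt := by
  intro B W _ _ M cs H hfin
  obtain ⟨P, hPf, hP⟩ := h21 cs
  have : H.FiniteIndex := hfin
  have : Finite (W ⧸ H) := inferInstance
  let Q := MulAction.orbitRel.Quotient H (Wall cs × Wall cs)
  let mk : Wall cs × Wall cs → Q := fun p => Quotient.mk _ p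
  have hmk : ∀ p p' : Wall cs × Wall cs, mk p = mk p' ↔ ∃ h ∈ H, h • p.1 = p'.1 ∧ h • p.2 = p'.2 := by
    intro p p'
    constructor
    · intro h0
      have h1 : (MulAction.orbitRel H (Wall cs × Wall cs)) p p' := Quotient.exact h0
      rw [MulAction.orbitRel_apply, MulAction.mem_orbit_iff] at h1
      obtain ⟨⟨h, hh⟩, he⟩ := h1
      refine ⟨h⁻¹, H.inv_mem hh, ?_, ?_⟩
      · rw [← he]
        show h⁻¹ • (h • p'.1) = p'.1
        rw [inv_smul_smul]
      · rw [← he]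
        show h⁻¹ • (h • p'.2) = p'.2
        rw [inv_smul_smul]
    · rintro ⟨h, hh, he1, he2⟩
      refine Quotient.sound (?_ : (MulAction.orbitRel H (Wall cs × Wall cs)) p p')
      rw [MulAction.orbitRel_apply, MulAction.mem_orbit_iff]
      refine ⟨⟨h⁻¹, H.inv_mem hh⟩, ?_⟩
      apply Prod.ext
      · show h⁻¹ • p'.1 = p.1
        rw [← he1, inv_smul_smul]
      · show h⁻¹ • p'.2 = p.2
        rw [← he2, inv_smul_smul]
  let S : Set Q := {q | (cw cs).Cross q.out.1 q.out.2}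
  have hSf : S.Finite := by
    have : Finite P := hPf
    have hr : (Set.range (fun x : P × (W ⧸ H) =>
        mk ((x.2.out)⁻¹ • x.1.1.1, (x.2.out)⁻¹ • x.1.1.2))).Finite := Set.finite_range _
    refine hr.subset ?_
    intro q hq
    obtain ⟨g, p, hp, e1, e2⟩ := hP _ _ (h7 cs _ _ hq)
    refine ⟨(⟨p, hp⟩, ((g⁻¹ : W) : W ⧸ H)), ?_⟩
    have hq2 : mk q.out = q := Quotient.out_eq q
    rw [← hq2, hmk]
    obtain ⟨h, hh⟩ := QuotientGroup.mk_out_eq_mul H (g⁻¹)
    refine ⟨h, h.2, ?_, ?_⟩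
    · show (h : W) • ((((g⁻¹ : W) : W ⧸ H).out)⁻¹ • p.1) = q.out.1
      rw [hh, smul_smul, e1]
      congr 1
      group
    · show (h : W) • ((((g⁻¹ : W) : W ⧸ H).out)⁻¹ • p.2) = q.out.2
      rw [hh, smul_smul, e2]
      congr 1
      group
  refine ⟨S, hSf.fintype, fun i => i.1.out, fun i => i.2, ?_⟩
  intro u u' huu
  have hout : mk (mk (u, u')).out = mk (u, u') := Quotient.out_eq _
  obtain ⟨h, hh, he1, he2⟩ := (hmk _ _).mp hout
  have he1' : h • (mk (u, u')).out.1 = u := he1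
  have he2' : h • (mk (u, u')).out.2 = u' := he2
  refine ⟨⟨mk (u, u'), ?_⟩, ⟨h, hh, he1', he2'⟩, ?_⟩
  · show (cw cs).Cross (mk (u, u')).out.1 (mk (u, u')).out.2
    have h9 := ((h4c cs h).1 (mk (u, u')).out.1 (mk (u, u')).out.2)
    rw [he1', he2'] at h9
    exact h9.mp huu
  · rintro ⟨q, hq⟩ ⟨k, hk, hk1, hk2⟩
    apply Subtype.ext
    show q = mk (u, u')
    have hq2 : mk q.out = q := Quotient.out_eq q
    rw [← hq2, hmk]
    refine ⟨k, hk, ?_, ?_⟩
    · exact hk1
    · exact hk2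

end Pool.Agent.helper65.DC
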