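import Mathlib
import Pool.Agent.helper58.DC.Spec3

/-!
Project dq (MP_baa4d7_al), module WQQ: the base group of the wreath product.
-/

set_option autoImplicit false

namespace Pool.Agent.helper65.DC

open Pool.Agent.helper58.DC

/-- the projection to `Q` -/
def WQQ_pr (A Q T : Type) [Group A] [Group Q] [MulAction Q T] : WrQ A Q T →* Q where
  toFun x := x.σ
  map_one' := rfl
  map_mul' _ _ := rfl

theorem WQQ_ker (A Q T : Type) [Group A] [Group Q] [MulAction Q T] :
    wqU A T (⊥ : Subgroup Q) = (WQQ_pr A Q T).ker := by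
  ext x
  change x.σ ∈ (⊥ : Subgroup Q) ↔ x ∈ (WQQ_pr A Q T).ker
  rw [Subgroup.mem_bot, MonoidHom.mem_ker]
  rfl

theorem WQQ : WQQ_stmt := by
  intro A Q T _ _ _
  refine ⟨?_, ?_, ?_⟩
  · rw [WQQ_ker]
    infer_instance
  · rw [WQQ_ker, Subgroup.index_ker]
    have h : Function.Surjective (WQQ_pr A Q T) := fun σ => ⟨⟨σ, fun _ => 1⟩, rfl⟩
    rw [MonoidHom.range_eq_top.mpr h]
    exact Nat.card_congr (Subgroup.topEquiv (G := Q)).toEquiv
  · intro _ _ _
    refine Finite.of_injective (fun x : WrQ A Q T => (x.σ, x.a)) ?_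
    intro x y h
    have h1 := (Prod.mk.inj h).1
    have h2 := (Prod.mk.inj h).2
    exact WrQ.ext h1 h2

end Pool.Agent.helper65.DC
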