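import Pool.Agent.helper53.DC.SpecV

/-! V2: the kernel `lam ^ d` on a tree through a finite set. -/

set_option autoImplicit false

namespace Pool.Agent.helper65.DC

open Pool.Agent.helper53.DC

section

variable {V E K : Type} [Group K] [MulAction K V] [MulAction K E]

open Classical in
/-- The parity class between two vertices. -/
noncomputable def V2_D (T : SimpleGraph V) (cl : V → V → E) (u v : V) : E → ZMod 2 :=
  if h : T.Reachable u v then cnt cl h.some else 0

theorem V2_D_eq (h1 : V1_stmt) {T : SimpleGraph V} (hT : T.IsAcyclic) {cl : V → V → E}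
    (hcl : ∀ u v, cl u v = cl v u) {u v : V} (p : T.Walk u v) : V2_D T cl u v = cnt cl p := by
  unfold V2_D
  rw [dif_pos ⟨p⟩]
  exact h1 T hT cl hcl u v _ _

theorem V2_cnt_nil {T : SimpleGraph V} (cl : V → V → E) (u : V) :
    cnt cl (SimpleGraph.Walk.nil : T.Walk u u) = 0 := by
  funext e
  simp [cnt]

theorem V2_cnt_append {T : SimpleGraph V} (cl : V → V → E) {u v x : V} (p : T.Walk u v)
    (q : T.Walk v x) : cnt cl (p.append q) = cnt cl p + cnt cl q := by
  funext e
  simp only [cnt, SimpleGraph.Walk.darts_append, List.countP_append, Pi.add_apply]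
  push_cast
  rfl

theorem V2_D_self (h1 : V1_stmt) {T : SimpleGraph V} (hT : T.IsAcyclic) {cl : V → V → E}
    (hcl : ∀ u v, cl u v = cl v u) (u : V) : V2_D T cl u u = 0 := by
  rw [V2_D_eq h1 hT hcl (SimpleGraph.Walk.nil : T.Walk u u), V2_cnt_nil]

theorem V2_D_add (h1 : V1_stmt) {T : SimpleGraph V} (hT : T.IsAcyclic) {cl : V → V → E}
    (hcl : ∀ u v, cl u v = cl v u) {u v x : V} (huv : T.Reachable u v) (hvx : T.Reachable v x) :
    V2_D T cl u x = V2_D T cl u v + V2_D T cl v x := by
  obtain ⟨p⟩ := huv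
  obtain ⟨q⟩ := hvx
  rw [V2_D_eq h1 hT hcl p, V2_D_eq h1 hT hcl q, V2_D_eq h1 hT hcl (p.append q), V2_cnt_append]

/-- Translation by `k` as a graph homomorphism. -/
def V2_hom {T : SimpleGraph V} (hadj : ∀ (k : K) u v, T.Adj u v → T.Adj (k • u) (k • v)) (k : K) :
    T →g T where
  toFun u := k • u
  map_rel' := fun {_ _} h => hadj k _ _ h

theorem V2_cnt_map {T : SimpleGraph V} {cl : V → V → E}
    (hadj : ∀ (k : K) u v, T.Adj u v → T.Adj (k • u) (k • v))
    (hce : ∀ (k : K) u v, T.Adj u v → cl (k • u) (k • v) = k • cl u v) (k : K) {u v : V}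
    (p : T.Walk u v) (e : E) :
    cnt cl (p.map (V2_hom hadj k)) e = cnt cl p (k⁻¹ • e) := by
  classical
  unfold cnt
  congr 1
  rw [SimpleGraph.Walk.darts_map, List.countP_map]
  apply List.countP_congr
  intro d _
  simp only [Function.comp, decide_eq_true_eq]
  show cl (k • d.fst) (k • d.snd) = e ↔ _
  rw [hce k _ _ d.adj]
  constructor
  · intro h; rw [← h, inv_smul_smul]
  · intro h; rw [h, smul_inv_smul]

theorem V2_D_smul (h1 : V1_stmt) {T : SimpleGraph V} (hT : T.IsAcyclic) {cl : V → V → E}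
    (hcl : ∀ u v, cl u v = cl v u)
    (hadj : ∀ (k : K) u v, T.Adj u v → T.Adj (k • u) (k • v))
    (hce : ∀ (k : K) u v, T.Adj u v → cl (k • u) (k • v) = k • cl u v) (k : K) {u v : V}
    (huv : T.Reachable u v) (e : E) :
    V2_D T cl (k • u) (k • v) e = V2_D T cl u v (k⁻¹ • e) := by
  obtain ⟨p⟩ := huv
  rw [V2_D_eq h1 hT hcl p, ← V2_cnt_map hadj hce k p e]
  exact congrFun (V2_D_eq h1 hT hcl (p.map (V2_hom hadj k))) e

theorem V2_reach {T : SimpleGraph V}
    (hadj : ∀ (k : K) u v, T.Adj u v → T.Adj (k • u) (k • v)) (k : K) {u v : V}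
    (huv : T.Reachable u v) : T.Reachable (k • u) (k • v) := by
  obtain ⟨p⟩ := huv
  exact ⟨p.map (V2_hom hadj k)⟩

/-- The weight. -/
noncomputable def V2_phi (lam : ℝ) (x : ZMod 2) : ℝ :=
  if x = 0 then (Real.sqrt (1 + lam) + Real.sqrt (1 - lam)) / 2
  else (Real.sqrt (1 + lam) - Real.sqrt (1 - lam)) / 2

theorem V2_zmod2 (x : ZMod 2) : x = 0 ∨ x = 1 := by
  revert x; decide

theorem V2_phi_sum {lam : ℝ} (h0 : 0 < lam) (h1 : lam < 1) (a b : ZMod 2) :
    ∑ x : ZMod 2, V2_phi lam (x - a) * V2_phi lam (x - b) = if a = b then 1 else lam := by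
  have hs1 : Real.sqrt (1 + lam) ^ 2 = 1 + lam := Real.sq_sqrt (by linarith)
  have hs2 : Real.sqrt (1 - lam) ^ 2 = 1 - lam := Real.sq_sqrt (by linarith)
  have hu : (Finset.univ : Finset (ZMod 2)) = {0, 1} := by decide
  rw [hu, Finset.sum_pair (by decide)]
  have e00 : (0 : ZMod 2) - 0 = 0 := by decide
  have e01 : (0 : ZMod 2) - 1 = 1 := by decide
  have e10 : (1 : ZMod 2) - 0 = 1 := by decide
  have e11 : (1 : ZMod 2) - 1 = 0 := by decide
  have p0 : V2_phi lam 0 = (Real.sqrt (1 + lam) + Real.sqrt (1 - lam)) / 2 := by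
    simp [V2_phi]
  have p1 : V2_phi lam 1 = (Real.sqrt (1 + lam) - Real.sqrt (1 - lam)) / 2 := by
    unfold V2_phi
    rw [if_neg (by decide)]
  rcases V2_zmod2 a with rfl | rfl <;> rcases V2_zmod2 b with rfl | rfl
  · rw [e00, e10, p0, p1, if_pos rfl]; nlinarith
  · rw [e00, e10, e01, e11, p0, p1, if_neg (by decide)]; nlinarith
  · rw [e00, e10, e01, e11, p0, p1, if_neg (by decide)]; nlinarith
  · rw [e01, e11, p0, p1, if_pos rfl]; nlinarith

end

theorem V2 (h1 : V1_stmt) : V2_stmt := by
  classical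
  intro V E K _ _ _ _ T cl w lam hT hcl hadj hce hw hl0 hl1
  have : Fintype E := Fintype.ofFinite E
  let D : V → V → E → ZMod 2 := V2_D T cl
  have Dself : ∀ u, D u u = 0 := fun u => V2_D_self h1 hT hcl u
  have Dadd : ∀ {u v x : V}, T.Reachable u v → T.Reachable v x → D u x = D u v + D v x :=
    fun h h' => V2_D_add h1 hT hcl h h'
  have Dsm : ∀ (k : K) {u v : V}, T.Reachable u v → ∀ e, D (k • u) (k • v) e = D u v (k⁻¹ • e) :=
    fun k {u v} h e => V2_D_smul h1 hT hcl hadj hce k h e
  have Drr : ∀ (k : K) {u v : V}, T.Reachable u v → T.Reachable (k • u) (k • v) :=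
    fun k {u v} h => V2_reach hadj k h
  let act : MulAction K (E → ZMod 2) :=
    { smul := fun k α e => α (k⁻¹ • e) + D w (k • w) e
      one_smul := by
        intro α
        funext e
        show α ((1 : K)⁻¹ • e) + D w ((1 : K) • w) e = α e
        rw [inv_one, one_smul, one_smul, Dself w]
        simp
      mul_smul := by
        intro k l α
        funext e
        show α ((k * l)⁻¹ • e) + D w ((k * l) • w) e
          = (α (l⁻¹ • (k⁻¹ • e)) + D w (l • w) (k⁻¹ • e)) + D w (k • w) e
        rw [mul_inv_rev, mul_smul, mul_smul, ← Dsm k (hw l) e,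
          Dadd (hw k) (Drr k (hw l)), Pi.add_apply]
        ring }
  refine ⟨E → ZMod 2, inferInstance, act, fun u α => ∏ e, V2_phi lam (α e - D w u e), ?_, ?_⟩
  · intro k u α hu
    have hk : ∀ e, (act.toSMul.smul k α) e = α (k⁻¹ • e) + D w (k • w) e := fun e => rfl
    have h2 : ∀ e, V2_phi lam ((act.toSMul.smul k α) e - D w (k • u) e)
        = V2_phi lam (α (k⁻¹ • e) - D w u (k⁻¹ • e)) := by
      intro e
      rw [hk, Dadd (hw k) (Drr k hu), Pi.add_apply, Dsm k hu e]
      congr 1
      ring
    show ∏ e, V2_phi lam ((act.toSMul.smul k α) e - D w (k • u) e)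
      = ∏ e, V2_phi lam (α e - D w u e)
    rw [Finset.prod_congr rfl (fun e _ => h2 e)]
    exact Equiv.prod_comp (MulAction.toPerm (k⁻¹) : Equiv.Perm E)
      (fun e => V2_phi lam (α e - D w u e))
  · intro u u' hu p hp hnd
    show ∑ α : E → ZMod 2, (∏ e, V2_phi lam (α e - D w u e)) * (∏ e, V2_phi lam (α e - D w u' e))
      = lam ^ p.length
    have hsum : ∑ α : E → ZMod 2, (∏ e, V2_phi lam (α e - D w u e)) *
          (∏ e, V2_phi lam (α e - D w u' e))
        = ∏ e, ∑ x : ZMod 2, V2_phi lam (x - D w u e) * V2_phi lam (x - D w u' e) := by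
      rw [Finset.prod_univ_sum (fun _ : E => (Finset.univ : Finset (ZMod 2)))
        (fun e x => V2_phi lam (x - D w u e) * V2_phi lam (x - D w u' e)),
        Fintype.piFinset_univ]
      refine Finset.sum_congr rfl (fun α _ => ?_)
      rw [Finset.prod_mul_distrib]
    rw [hsum]
    have hD : ∀ e, (D w u e = D w u' e) ↔ cnt cl p e = 0 := by
      intro e
      have h3 : D w u' = D w u + cnt cl p := by
        rw [← V2_D_eq h1 hT hcl p]
        exact Dadd hu ⟨p⟩
      rw [h3, Pi.add_apply]
      constructor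
      · intro h
        exact (left_eq_add.mp h)
      · intro h
        rw [h, add_zero]
    have hprod : ∀ e, (∑ x : ZMod 2, V2_phi lam (x - D w u e) * V2_phi lam (x - D w u' e))
        = if cnt cl p e = 0 then 1 else lam := by
      intro e
      rw [V2_phi_sum hl0 hl1]
      by_cases h : cnt cl p e = 0
      · rw [if_pos ((hD e).mpr h), if_pos h]
      · rw [if_neg (fun h' => h ((hD e).mp h')), if_neg h]
    rw [Finset.prod_congr rfl (fun e _ => hprod e)]
    -- the classes on the path
    set L : List E := p.darts.map (fun d => cl d.fst d.snd) with hL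
    have hcnt : ∀ e, cnt cl p e = if e ∈ L then 1 else 0 := by
      intro e
      have h4 : p.darts.countP (fun d => decide (cl d.fst d.snd = e)) = L.count e := by
        rw [hL, List.count, List.countP_map]
        apply List.countP_congr
        intro d _
        simp
      unfold cnt
      rw [h4]
      by_cases he : e ∈ L
      · rw [List.count_eq_one_of_mem hnd he, if_pos he]; simp
      · rw [List.count_eq_zero_of_not_mem he, if_neg he]; simp
    have h5 : ∀ e, (if cnt cl p e = 0 then (1 : ℝ) else lam) = if e ∈ L then lam else 1 := by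
      intro e
      rw [hcnt e]
      by_cases he : e ∈ L
      · rw [if_pos he, if_pos he, if_neg (by decide)]
      · rw [if_neg he, if_neg he, if_pos rfl]
    rw [Finset.prod_congr rfl (fun e _ => h5 e)]
    have h6 : (∏ e, if e ∈ L then lam else 1) = ∏ e ∈ L.toFinset, lam := by
      rw [← Finset.prod_filter]
      apply Finset.prod_congr _ (fun _ _ => rfl)
      ext e
      simp
    rw [h6, Finset.prod_const, List.toFinset_card_of_nodup hnd]
    congr 1
    rw [hL, List.length_map, SimpleGraph.Walk.length_darts]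

end Pool.Agent.helper65.DC
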